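import Pool.Agent.W2helper58.GU.Fin
import Pool.Agent.W2helper17.GU.PH
import Pool.Agent.W2helper71.GU.Up

/-!
# An oracle with a complete language for `UP`, `P ≠ UP ≠ NP` and an infinite hierarchy

There is an oracle `O` relative to which `UP` has a complete language, `P ≠ UP ≠ NP` (already for tally languages), the
polynomial hierarchy is infinite, and every nonempty language in `PSPACE` has a p-optimal proof system.

Proof. The oracle has four columns `A`, `B`, `U`, `C`: `A` is generic, `B` is generic among the oracles with at most one
string of each length, `U` and `C` are fixed. `U` tells the bits of the next actions of all polynomial-time oracle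
algorithms, so that there is a universal algorithm; `C` is a guide, defined by recursion on the length of the strings: for an
algorithm `h`, an input `y` and a time bound `t` it tells whether `h` has at most one witness for `y` relative to ALL columns
`A` and `B` together with `U` and `C`. If a verifier never has two witnesses relative to the generic `A`, `B`, then this is
forced by finitely many values of `A` and `B`, and so the guide certifies it for the verifier which first checks these
values. The complete language consists of the certified computations.

The lower bounds for the levels of the hierarchy relative to a generic `A` and arbitrary other columns (helper17,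
`W2helper17/GU/PH.lean`) use the average-case hierarchy theorem of the starting library (`H591R3/PHG`); the lower bounds for
the tally languages are by helper71 (`W2helper71/GU`).
-/

set_option autoImplicit false

namespace Pool.Agent.Results.MP_d5150c_lc.CompleteUPInfiniteHierarchy

open Pool.Agent.H622R2 Pool.Agent.H620R2.Gauge Pool.Agent.H591R3.PHG Pool.Agent.NPC Pool.Agent.W2helper58.GU

theorem result : ∃ O : Oracle,
    -- `UP` has a complete language
    (∃ K, W2helper58.GU.IsUP O K ∧ ∀ L, W2helper58.GU.IsUP O L → ∃ F : List Bool → List Bool, PolyTime F ∧
      ∀ x, x ∈ L ↔ F x ∈ K) ∧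
    -- some tally language is in `UP` and not in `P`
    (∃ L, (∀ x ∈ L, x = List.replicate x.length true) ∧ W2helper58.GU.IsUP O L ∧ ¬ IsP O L) ∧
    -- some tally language is in `NP` and not in `UP`
    (∃ L, (∀ x ∈ L, x = List.replicate x.length true) ∧ W2helper58.GU.IsNP O L ∧ ¬ W2helper58.GU.IsUP O L) ∧
    -- the polynomial hierarchy is infinite
    (∀ k : ℕ, ∃ L, IsSig O (k + 1) L ∧ ¬ IsSig O k L) ∧
    -- every nonempty language in `PSPACE` has a p-optimal proof system
    ∀ L, IsPSPACE O L → L.Nonempty → ∃ f : List Bool → List Bool, IsFP O f ∧ Set.range f = L ∧
      ∀ g : List Bool → List Bool, IsFP O g → (∀ x, g x ∈ L) →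
        ∃ τ : List Bool → List Bool, PolyTime τ ∧ ∀ x, g x = f (τ x) := by
  obtain ⟨O, h1, h2, h3, h4, _, _, h7⟩ :=
    final Pool.Agent.W2helper17.GU.s_PH Pool.Agent.W2helper17.GU.s_SIG
      Pool.Agent.W2helper71.GU.s_pup Pool.Agent.W2helper71.GU.s_upnp
  exact ⟨O, h4, h2, h3, h1, h7⟩

end Pool.Agent.Results.MP_d5150c_lc.CompleteUPInfiniteHierarchy
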