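import Pool.Agent.W2helper26.PB.Main

/-!
# A few planted bits give a complete language for `UP`

The classes relative to an oracle are the ones of `Pool.Agent.H620R2.Gauge.Defs` (`IsP`, `IsPHpoly`),
`Pool.Agent.H620R2.Gauge2.Defs` (`IsNP`, `WithAdvice`), `Pool.Agent.W2helper58.BR.Cls` (`IsUP`) and
`Pool.Agent.W2helper57.PPH.Defs` (`IsPP`).

Relative to almost every oracle there is no complete language for `UP` (`RandomOracles`, same problem). We
show that this is nearly optimal: the set of the oracles relative to which `UP` has a complete language,
although `P` is not `UP`, `NP` is not contained in `coNP` with advice and `PP` is not contained in the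
polynomial hierarchy with advice, is not a null set for any gauge `f` with `f N ≥ ε log log log N`.

Proof. In a random oracle only the bits at certain strings are changed, at most `ε log log log N` of
the first `N` bits. The changed oracle tells for each machine whether it is unambiguous for all inputs up to
the length `ℓ`, where `ℓ` is in a sequence in which each member is a large fixed power of the one before;
the power grows quickly with the number of the machine. This is a recursive definition, since the machines
may ask for the changed bits, too. The complete language consists of the computations of machines certified in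
this way, simulated by a universal machine. A random oracle contains infinitely many hits (strings of
length `n` for which `n + log n` certain bits are one), of which finitely many are not unique, and a
polynomial-time algorithm does not find them: the few planted bits are guessed.
-/

set_option autoImplicit false

namespace Pool.Agent.Results.MP_d5150c_lc.FewPlantedBits

open Filter Pool.Agent.NPC Pool.Agent.H620R2.Gauge
open Pool.Agent.W2helper58.BR (IsUP)

theorem result (f : ℕ → ℝ) (ε : ℝ) (hε : 0 < ε)
    (hf : ∀ᶠ N : ℕ in atTop, ε * Real.logb 2 (Real.logb 2 (Real.logb 2 N)) ≤ f N) :
    ¬ Null f {A : Oracle |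
      -- there is a complete language for `UP`, under reductions which do not use the oracle
      (∃ K, IsUP A K ∧ ∀ L, IsUP A L → ∃ F : List Bool → List Bool, PolyTime F ∧
        ∀ x, x ∈ L ↔ F x ∈ K) ∧
      -- `P` is not `UP`
      (∃ L, IsUP A L ∧ ¬ IsP A L) ∧
      -- `NP` is not contained in `coNP` with polynomial advice
      (∃ L, IsNP A L ∧ ¬ WithAdvice (IsNP A) Lᶜ) ∧
      -- `PP` is not contained in the polynomial hierarchy with polynomial advice
      ∃ L, IsPP A L ∧ ¬ IsPHpoly A L} := by
  intro h
  refine Pool.Agent.W2helper26.PB.main f ε hε hf (h.mono ?_)
  rintro A ⟨⟨h1, _, h2⟩, h3, h4⟩
  exact ⟨h1, h2, h3, h4⟩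

end Pool.Agent.Results.MP_d5150c_lc.FewPlantedBits
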