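import Pool.Agent.W2helper61.SM.Chain

/-!
For every exponent `k`, no language in `UP` is complete for `UP` under many-one reductions
computable in time `O(n^k)`.
-/

set_option autoImplicit false

open N793a5b8e N68a2faeb

namespace Pool.Agent.Results.MP_d5150c_lc.NoFixedPolyComplete

open Pool.Agent.W2helper61.SM

theorem result (k : ℕ) (L : DecisionProblem) (h : L ∈ UP) :
    ∃ L' ∈ UP, ∀ f : List Bool → List Bool, TimePow k f → ¬ ∀ x, L' x = L (f x) :=
  up_main k L h

end Pool.Agent.Results.MP_d5150c_lc.NoFixedPolyComplete
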