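import Pool.Agent.W2helper58.RU.Done

/-!
# Relative to a random oracle there is no complete language for `UP`

For almost every oracle `A` no language in `UP^A` is hard for `UP^A` under polynomial-time many-one reductions relative to
`A`; for every `K` in `UP^A` there is even a tally language in `UP^A` which does not reduce to `K`.

Proof. Fix a verifier `V` for `K` and an enumeration of the reductions. Block `n` of the oracle has two halves with `2 ^ n`
candidates each, and a candidate is a hit if certain `n + j` strings are in the oracle, so each half has a hit with
probability about `2 ^ (-j)`. The tally language `L` tells for a very sparse sequence of blocks whether the block has a hit;
it is in `UP^A` if no block has two hits. Key inequality (`RU/Key.lean`, `RU/FailU.lean`): if `V` has two witnesses for some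
input with probability at most `1 / 4`, under the condition that both halves have a hit, then each reduction fails at the
block with probability at least a constant times `2 ^ (-j)`. The condition has probability about `4 ^ (-j)`, so one would
like to use `2 ^ j` blocks of each level `j`: then almost surely only finitely many blocks have two hits, but each
reduction fails at some block. Whether the assumption on `V` is satisfied at a block is decided by brute force, relative to
a fixed initial segment of the oracle and with a pad given by the next block; if it is not satisfied the level is not
changed. If `A` is such that `V` never has two witnesses, then by Lebesgue's density theorem we can choose the initial
segment such that the mistakes of `V` have conditional probability at most `1 / 8`. At the unsuccessful blocks they have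
conditional probability at least `1 / 4` under the condition of two hits, and since these conditions are independent,
Bessel's inequality shows that the sum of the probabilities of two hits over all unsuccessful blocks is finite
(`RU/Bessel.lean`). Hence all levels are passed, and almost surely only finitely many blocks have two hits.
-/

set_option autoImplicit false

namespace Pool.Agent.Results.MP_d5150c_lc.RandomOracles

open MeasureTheory Pool.Agent.H628R3.RO

/-- For almost every oracle `A`: for every `K` in `UP^A` there is a tally language `L` in `UP^A` which is not polynomial-time
many-one reducible to `K` relative to `A`. -/
theorem result : ∀ᵐ A ∂randomOracle, ∀ K : Set (List Bool), IsUP A K →
    ∃ L : Set (List Bool), IsUP A L ∧ (∀ x ∈ L, x = List.replicate x.length true) ∧ ¬ Red A L K :=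
  Pool.Agent.W2helper58.RU.final_U Pool.Agent.W2helper58.RU.stageHyp

end Pool.Agent.Results.MP_d5150c_lc.RandomOracles
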